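import Pool.Agent.H608R4.KM.Stm

set_option autoImplicit false

namespace Pool.Agent.TH557.KM

open Finset Pool.Agent.H608R4.KM

/-- TN: the sum of `a T` is nonnegative. -/
theorem t_TN (h1 : S_BU) : S_TN := by
  intro n a x y s h
  have hB := (h1 n a x y h).1
  have hv : ∀ i j, v x y i j = - v x y j i := by
    intro i j; unfold v; ring
  have e1 : ∑ i, ∑ j, a i j * v x y i j * s i = 0 := by
    apply Finset.sum_eq_zero
    intro i _
    rw [← Finset.sum_mul, h.l1 i, zero_mul]
  have e2 : ∑ i, ∑ j, a i j * v x y i j * s j = 0 := by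
    rw [Finset.sum_comm]
    apply Finset.sum_eq_zero
    intro j _
    have : ∀ i, a i j * v x y i j * s j = -(a j i * v x y j i) * s j := by
      intro i
      rw [h.gr.sym i j, hv i j]; ring
    rw [Finset.sum_congr rfl fun i _ => this i, ← Finset.sum_mul, Finset.sum_neg_distrib, h.l1 j]
    simp
  have e3 : ∑ i, ∑ j, a i j * T x y s i j =
      ∑ i, ∑ j, a i j * (u x y i j * (1 - u x y i j)) - ∑ i, ∑ j, a i j * v x y i j * s i
        + ∑ i, ∑ j, a i j * v x y i j * s j := by
    rw [← Finset.sum_sub_distrib, ← Finset.sum_add_distrib]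
    apply Finset.sum_congr rfl
    intro i _
    rw [← Finset.sum_sub_distrib, ← Finset.sum_add_distrib]
    apply Finset.sum_congr rfl
    intro j _
    unfold T
    ring
  rw [e3, e1, e2]
  linarith

end Pool.Agent.TH557.KM
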